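import Pool.Agent.Helper33.KU.Split
import Pool.Agent.Helper82.KR.Second
import Pool.Agent.Helper23.KR.VarNorm

/-!
# KR, piece K: the extremal value is attained for one radius only
-/

set_option autoImplicit false

namespace Pool.Agent.Helper23.KU

open Polynomial Filter Topology Metric MeasureTheory Set
open Pool.Agent.Helper23.KB (Sph Dom KF Ext sq area_series ms_series kf_le kf_dn kf_nonneg int_cont)

/-- a function on the sphere has a nonzero value -/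
theorem ne_of_sph' {g : ℂ → ℂ} (h : Sph g) : ∃ z ∈ ball (0 : ℂ) 1, g z ≠ 0 := by
  by_contra hc
  push Not at hc
  have h1 := h.2.2
  have h2 : ∫ z in ball (0 : ℂ) 1, ‖g z‖ ^ 2 = 0 := by
    rw [setIntegral_congr_fun measurableSet_ball (g := fun _ => (0 : ℝ))
      (fun z hz => by simp only [hc z hz, norm_zero]; norm_num)]
    simp
  rw [h2, mul_zero] at h1
  exact zero_ne_one h1

/-- the bound survives the division by `v` on the open annulus -/
theorem bound_open {c F : ℝ} (hF : 0 < F) {f g v N : ℂ → ℂ} {P : ℂ → ℂ}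
    (hP : Continuous P) (hv : DifferentiableOn ℂ v (ball 0 1))
    (hN : DifferentiableOn ℂ N (ball 0 1)) (hv0 : ∃ z ∈ ball (0 : ℂ) 1, v z ≠ 0)
    (hg : ∀ z ∈ ball (0 : ℂ) 1, g z = P z * v z)
    (hf : ∀ z ∈ ball (0 : ℂ) 1, f z = (F : ℂ) * v z * N z)
    (h : ∀ z : ℂ, c ≤ ‖z‖ → ‖z‖ < 1 → ‖f z‖ ≤ F * ‖g z‖) {z : ℂ} (hz : c < ‖z‖)
    (hz1 : ‖z‖ < 1) : ‖N z‖ ≤ ‖P z‖ := by
  have hzb : z ∈ ball (0 : ℂ) 1 := mem_ball_zero_iff.2 hz1
  have hva : AnalyticOnNhd ℂ v (ball 0 1) := hv.analyticOnNhd isOpen_ball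
  have h2 : ∀ᶠ y in 𝓝[≠] z, v y ≠ 0 := by
    rcases (hva z hzb).eventually_eq_zero_or_eventually_ne_zero with h3 | h3
    · exfalso
      obtain ⟨w, hw, hwv⟩ := hv0
      exact hwv (hva.eqOn_zero_of_preconnected_of_eventuallyEq_zero
        (convex_ball (0 : ℂ) 1).isPreconnected hzb h3 hw)
    · exact h3
  have h3 : ∀ᶠ y in 𝓝[≠] z, ‖N y‖ ≤ ‖P y‖ := by
    have h4 : ∀ᶠ y in 𝓝[≠] z, c < ‖y‖ :=
      (continuous_norm.continuousAt.eventually (lt_mem_nhds hz)).filter_mono nhdsWithin_le_nhds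
    have h5 : ∀ᶠ y in 𝓝[≠] z, ‖y‖ < 1 :=
      (continuous_norm.continuousAt.eventually (gt_mem_nhds hz1)).filter_mono nhdsWithin_le_nhds
    filter_upwards [h2, h4, h5] with y hy hy1 hy2
    have hyb : y ∈ ball (0 : ℂ) 1 := mem_ball_zero_iff.2 hy2
    have h6 := h y hy1.le hy2
    rw [hf y hyb, hg y hyb, norm_mul, norm_mul, norm_mul, Complex.norm_real, Real.norm_eq_abs,
      abs_of_pos hF] at h6
    have h7 : 0 < F * ‖v y‖ := mul_pos hF (norm_pos_iff.2 hy)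
    have h8 : F * ‖v y‖ * ‖N y‖ ≤ F * ‖v y‖ * ‖P y‖ := by
      calc F * ‖v y‖ * ‖N y‖ ≤ F * (‖P y‖ * ‖v y‖) := h6
        _ = F * ‖v y‖ * ‖P y‖ := by ring
    exact le_of_mul_le_mul_left h8 h7
  have hNc : Tendsto (fun y => ‖N y‖) (𝓝[≠] z) (𝓝 ‖N z‖) :=
    ((hN.continuousOn.continuousAt (isOpen_ball.mem_nhds hzb)).norm.tendsto).mono_left
      nhdsWithin_le_nhds
  have hPc : Tendsto (fun y => ‖P y‖) (𝓝[≠] z) (𝓝 ‖P z‖) :=
    (hP.norm.tendsto z).mono_left nhdsWithin_le_nhds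
  exact le_of_tendsto_of_tendsto hNc hPc h3

/-- piece K -/
theorem inj_of_ext {c c' : ℝ} (h0 : 0 < c) (hcc : c < c') (h1 : c' < 1) (hF : KF c' < 1)
    (heq : KF c = KF c') {f g : ℂ → ℂ} (h : Ext c f g) : False := by
  have h0' : 0 < c' := h0.trans hcc
  have hE : Ext c' f g :=
    ⟨h.1, h.2.1, fun z hz hz1 => by rw [← heq]; exact h.2.2 z (hcc.le.trans hz) hz1⟩
  have hFp : 0 < KF c' := kf_pos' h0' h1
  obtain ⟨s, v, N, hs, hv, hN, hvi, hg, hf, hN1, hN2⟩ := split_ext h0' h1 hE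
  have hs1 : ∀ a ∈ s, ‖a‖ < 1 := fun a ha => (hs a ha).trans h1
  have hv0 : ∃ z ∈ ball (0 : ℂ) 1, v z ≠ 0 := by
    obtain ⟨z, hz, hgz⟩ := ne_of_sph' h.2.1
    refine ⟨z, hz, fun h3 => hgz ?_⟩
    rw [hg z hz, h3, mul_zero]
  have hb : ∀ z : ℂ, c < ‖z‖ → ‖z‖ < 1 → ‖N z‖ ≤ ‖mm s z‖ := fun z hz hz1 =>
    bound_open hFp (mm_diff33 s).continuous hv hN hv0 hg hf
      (fun y hy hy1 => by rw [← heq]; exact h.2.2 y hy hy1) hz hz1
  have hmm0 : ∀ z : ℂ, ‖z‖ = c' → mm s z ≠ 0 := fun z hz => mm_ne33 fun h3 =>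
    absurd (hs z h3) (by rw [hz]; exact lt_irrefl _)
  -- the inequality is strict on the circle
  have hlt : ∀ z : ℂ, ‖z‖ = c' → ‖N z‖ < ‖mm s z‖ := by
    intro z hz
    have hz1 : ‖z‖ < 1 := by rw [hz]; exact h1
    have hzc : c < ‖z‖ := by rw [hz]; exact hcc
    have hzb : z ∈ ball (0 : ℂ) 1 := mem_ball_zero_iff.2 hz1
    refine lt_of_le_of_ne (hb z hzc hz1) fun hne => ?_
    have hev : ∀ᶠ y in 𝓝 z, c < ‖y‖ ∧ ‖y‖ < 1 ∧ mm s y ≠ 0 := by
      have h4 : ∀ᶠ y in 𝓝 z, c < ‖y‖ := continuous_norm.continuousAt.eventually (lt_mem_nhds hzc)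
      have h5 : ∀ᶠ y in 𝓝 z, ‖y‖ < 1 := continuous_norm.continuousAt.eventually (gt_mem_nhds hz1)
      have h6 : ∀ᶠ y in 𝓝 z, mm s y ≠ 0 :=
        (mm_diff33 s).continuous.continuousAt.eventually_ne (hmm0 z hz)
      filter_upwards [h4, h5, h6] with y a b c using ⟨a, b, c⟩
    have hd : ∀ᶠ y in 𝓝 z, DifferentiableAt ℂ (fun y => N y / mm s y) y := by
      filter_upwards [hev] with y hy
      exact (hN.differentiableAt (isOpen_ball.mem_nhds (mem_ball_zero_iff.2 hy.2.1))).div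
        ((mm_diff33 s) y) hy.2.2
    have hmax : IsLocalMax (norm ∘ fun y => N y / mm s y) z := by
      filter_upwards [hev] with y hy
      simp only [Function.comp_apply, norm_div]
      rw [hne, div_self (norm_ne_zero_iff.2 (hmm0 z hz))]
      exact div_le_one_of_le₀ (hb y hy.1 hy.2.1) (norm_nonneg _)
    have hconst := Complex.eventually_eq_of_isLocalMax_norm hd hmax
    set κ : ℂ := N z / mm s z with hκ
    have hκ1 : ‖κ‖ = 1 := by
      rw [hκ, norm_div, hne, div_self (norm_ne_zero_iff.2 (hmm0 z hz))]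
    have hloc : N =ᶠ[𝓝 z] fun y => κ * mm s y := by
      filter_upwards [hconst, hev] with y hy hy2
      rw [← hy, div_mul_cancel₀ _ hy2.2.2]
    have hglob : EqOn N (fun y => κ * mm s y) (ball 0 1) :=
      (hN.analyticOnNhd isOpen_ball).eqOn_of_preconnected_of_eventuallyEq
        (((mm_diff33 s).const_mul κ).differentiableOn.analyticOnNhd isOpen_ball)
        (convex_ball (0 : ℂ) 1).isPreconnected hzb hloc
    have hfg : ∀ y ∈ ball (0 : ℂ) 1, ‖f y‖ ^ 2 = KF c' ^ 2 * ‖g y‖ ^ 2 := by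
      intro y hy
      rw [hf y hy, hg y hy, hglob hy]
      simp only [norm_mul, Complex.norm_real, Real.norm_eq_abs, abs_of_pos hFp, hκ1]
      ring
    have hint : ∫ y in ball (0 : ℂ) 1, ‖f y‖ ^ 2 = KF c' ^ 2 * ∫ y in ball (0 : ℂ) 1, ‖g y‖ ^ 2 := by
      rw [setIntegral_congr_fun measurableSet_ball (g := fun y => KF c' ^ 2 * ‖g y‖ ^ 2) hfg,
        integral_const_mul]
    have e1 := h.1.2.2
    have e2 := h.2.1.2.2
    rw [hint] at e1
    have e3 : KF c' ^ 2 = 1 := by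
      calc KF c' ^ 2 = KF c' ^ 2 * (Real.pi⁻¹ * ∫ y in ball (0 : ℂ) 1, ‖g y‖ ^ 2) := by
            rw [e2, mul_one]
        _ = Real.pi⁻¹ * (KF c' ^ 2 * ∫ y in ball (0 : ℂ) 1, ‖g y‖ ^ 2) := by ring
        _ = 1 := e1
    nlinarith
  -- the variation by a constant
  have hsub : sphere (0 : ℂ) c' ⊆ ball (0 : ℂ) 1 := fun z hz =>
    mem_ball_zero_iff.2 (by rw [mem_sphere_zero_iff_norm.1 hz]; exact h1)
  have hkc : ContinuousOn (fun z : ℂ => ‖mm s z‖ ^ 2 - ‖N z‖ ^ 2) (sphere (0 : ℂ) c') :=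
    ((mm_diff33 s).continuous.norm.pow 2).continuousOn.sub ((hN.continuousOn.mono hsub).norm.pow 2)
  have hne : (sphere (0 : ℂ) c').Nonempty := ⟨(c' : ℂ), by
    rw [mem_sphere_zero_iff_norm, Complex.norm_real, Real.norm_eq_abs, abs_of_pos h0']⟩
  obtain ⟨w, hw, hwm⟩ := (isCompact_sphere (0 : ℂ) c').exists_isMinOn hne hkc
  have hpos : ∀ z : ℂ, ‖z‖ = c' → 0 < ‖mm s z‖ ^ 2 - ‖N z‖ ^ 2 := by
    intro z hz
    have h3 := hlt z hz
    have h4 := norm_nonneg (N z)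
    nlinarith
  have hw0 := hpos w (mem_sphere_zero_iff_norm.1 hw)
  set κ₀ : ℝ := ‖mm s w‖ ^ 2 - ‖N w‖ ^ 2 with hκ₀
  set k : ℂ → ℂ := fun z => ((‖mm s z‖ ^ 2 - ‖N z‖ ^ 2 : ℝ) : ℂ) with hk
  have hk1 : ∀ z : ℂ, ‖z‖ = c' → ‖k z‖ = ‖mm s z‖ ^ 2 - ‖N z‖ ^ 2 := by
    intro z hz
    simp only [hk]
    rw [Complex.norm_real, Real.norm_eq_abs, abs_of_pos (hpos z hz)]
  have hk2 : ∀ z : ℂ, ‖z‖ = c' → 1 ≤ κ₀⁻¹ * ‖k z‖ := by
    intro z hz
    rw [hk1 z hz, ← div_eq_inv_mul, le_div_iff₀ hw0, one_mul]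
    exact hwm (mem_sphere_zero_iff_norm.2 hz)
  have hI1 : ∀ z ∈ ball (0 : ℂ) 1, ‖N z / mr s z‖ ≤ 1 := by
    intro z hz
    rw [norm_div]
    exact div_le_one_of_le₀ (hN2 z hz) (norm_nonneg _)
  have hId : DifferentiableOn ℂ (fun z => N z / mr s z) (ball 0 1) :=
    hN.div (mr_diff33 s).differentiableOn fun z hz => mr_ne33 hs1 (mem_ball_zero_iff.1 hz).le
  have hrv1 : rv 0 (1 : ℂ[X]) = 1 := by
    simp [rv]
  have hrv0 : rv 0 (0 : ℂ[X]) = 0 := by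
    simp [rv]
  obtain ⟨t₀, ht₀, hτ⟩ := var_norm h0' h1 hE hs hv hN hvi hg hf hN1 hN2
    (Complex.continuous_ofReal.comp_continuousOn hkc) hk1 (n := 0) (p := 1) (q := 0)
    (y := fun z => N z / mr s z) (C := κ₀⁻¹) (by simp) (by simp) hId
    (fun z _ => by simp) (fun z hz => (hI1 z (hsub (mem_sphere_zero_iff_norm.2 hz))).trans
      (hk2 z hz)) (fun z hz => by
        rw [hrv1, hrv0]
        have e : ‖(1 : ℂ[X]).eval z - (0 : ℂ[X]).eval z * (N z / mr s z)‖ = 1 := by simp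
        rw [e]
        exact hk2 z hz)
  rw [hrv1, hrv0] at hτ
  simp only [eval_one, eval_zero, zero_mul, sub_zero] at hτ
  have hmrb : ∃ B : ℝ, ∀ z ∈ closedBall (0 : ℂ) 1, ‖mr s z‖ ≤ B := by
    obtain ⟨B, hB⟩ := ((isCompact_closedBall (0 : ℂ) 1).image_of_continuousOn
      (mr_diff33 s).continuous.norm.continuousOn).bddAbove
    exact ⟨B, fun z hz => hB ⟨z, hz, rfl⟩⟩
  obtain ⟨B, hB⟩ := hmrb
  have hGd : DifferentiableOn ℂ (fun z => (KF c' : ℂ) * v z * mr s z) (ball 0 1) :=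
    ((hv.const_mul _).mul (mr_diff33 s).differentiableOn)
  have hGi : IntegrableOn (fun z => ‖(KF c' : ℂ) * v z * mr s z‖ ^ 2) (ball (0 : ℂ) 1) := by
    refine Integrable.mono' (hvi.const_mul ((KF c' * B) ^ 2)) ?_ ?_
    · exact ((hGd.continuousOn.norm.pow 2).aestronglyMeasurable measurableSet_ball)
    · rw [ae_restrict_iff' measurableSet_ball]
      refine Eventually.of_forall fun z hz => ?_
      rw [Real.norm_eq_abs, abs_of_nonneg (by positivity), norm_mul, norm_mul, Complex.norm_real,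
        Real.norm_eq_abs, abs_of_pos hFp]
      have h3 := hB z (ball_subset_closedBall hz)
      have h4 : KF c' * ‖v z‖ * ‖mr s z‖ ≤ KF c' * ‖v z‖ * B :=
        mul_le_mul_of_nonneg_left h3 (by positivity)
      calc (KF c' * ‖v z‖ * ‖mr s z‖) ^ 2 ≤ (KF c' * ‖v z‖ * B) ^ 2 :=
            pow_le_pow_left₀ (by positivity) h4 2
        _ = (KF c' * B) ^ 2 * ‖v z‖ ^ 2 := by ring
  have hG0 : ∃ z ∈ ball (0 : ℂ) 1, (KF c' : ℂ) * v z * mr s z ≠ 0 := by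
    obtain ⟨z, hz, hvz⟩ := hv0
    exact ⟨z, hz, mul_ne_zero (mul_ne_zero (by exact_mod_cast hFp.ne') hvz)
      (mr_ne33 hs1 (mem_ball_zero_iff.1 hz).le)⟩
  have hone : sq (fun z => ((KF c' : ℂ) * v z * mr s z) * (N z / mr s z)) 1 = 1 := by
    have e5 : ∫ z in ball (0 : ℂ) 1, ‖((KF c' : ℂ) * v z * mr s z) * (N z / mr s z)‖ ^ 2 =
        ∫ z in ball (0 : ℂ) 1, ‖f z‖ ^ 2 := by
      refine setIntegral_congr_fun measurableSet_ball fun z hz => ?_
      have h3 : mr s z ≠ 0 := mr_ne33 hs1 (mem_ball_zero_iff.1 hz).le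
      have h4 : (KF c' : ℂ) * v z * mr s z * (N z / mr s z) = f z := by
        rw [hf z hz]
        field_simp
      simp only [h4]
    rw [Pool.Agent.Helper23.KB.sq, e5]
    exact h.1.2.2
  have hfin := second_order (M := 1) hGd hGi hG0 hId (x := fun _ => 1)
    (differentiableOn_const _) hId hI1 (fun z _ => by simp) hI1 hone ht₀
    (fun τ hτ1 => by simpa only [mul_one] using hτ τ hτ1)
  obtain ⟨z, hz⟩ := hne
  have hz' := mem_sphere_zero_iff_norm.1 hz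
  have h3 := hfin z (hsub hz)
  rw [Complex.mul_conj, Complex.normSq_eq_norm_sq] at h3
  have h4 : ‖N z / mr s z‖ ^ 2 = 1 := by exact_mod_cast h3.symm
  have h5 : ‖N z‖ < ‖mr s z‖ := (hlt z hz').trans_le (mm_le_mr hs1 (by rw [hz']; exact h1.le))
  have h6 : ‖N z / mr s z‖ < 1 := by
    rw [norm_div]
    exact (div_lt_one ((norm_nonneg _).trans_lt h5)).2 h5
  have h7 := norm_nonneg (N z / mr s z)
  nlinarith

end Pool.Agent.Helper23.KU
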