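import Mathlib

/-!
Pointwise second order inequality, mean over four phases.
-/

set_option autoImplicit false

namespace Pool.Agent.Helper23.KU

namespace FP

/-- the second order part -/
noncomputable def Qf (I x y τ : ℂ) : ℝ :=
  ‖I‖ ^ 2 + 2 * ((starRingEnd ℂ) I * ((starRingEnd ℂ) τ * y * I - τ * x)).re +
    2 * ((starRingEnd ℂ) I * ((starRingEnd ℂ) τ * y * ((starRingEnd ℂ) τ * y * I - τ * x))).re +
    ‖(starRingEnd ℂ) τ * y * I - τ * x‖ ^ 2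

theorem sq_aux {h w d : ℝ} (hh : 0 ≤ h) (hw : 0 ≤ w) (hd : 0 ≤ d) (h1 : w ≤ h + d) :
    w ^ 2 - 2 * w * d ≤ h ^ 2 := by
  by_cases hwd : d ≤ w
  · nlinarith [mul_self_nonneg d, mul_nonneg (sub_nonneg.2 hwd) (sub_nonneg.2 hwd)]
  · push Not at hwd
    nlinarith [mul_nonneg hw hd, mul_nonneg hw (sub_nonneg.2 hwd.le), sq_nonneg h]

theorem one_phase {M t : ℝ} (ht0 : 0 ≤ t) (htM : t * M ≤ 1 / 2) (hM : 0 ≤ M) {I x y τ : ℂ}
    (hτ : ‖τ‖ = t) (hI : ‖I‖ ≤ 1) (hx : ‖x‖ ≤ M) (hy : ‖y‖ ≤ M) :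
    Qf I x y τ - 28 * (t * M) ^ 3 ≤ ‖(I - τ * x) / (1 - (starRingEnd ℂ) τ * y)‖ ^ 2 := by
  set s := t * M with hs
  have hs0 : 0 ≤ s := mul_nonneg ht0 hM
  set a := (starRingEnd ℂ) τ * y with ha
  have hna : ‖a‖ ≤ s := by
    rw [ha, norm_mul, RCLike.norm_conj, hτ]
    exact mul_le_mul_of_nonneg_left hy ht0
  have hnt : ‖τ * x‖ ≤ s := by
    rw [norm_mul, hτ]
    exact mul_le_mul_of_nonneg_left hx ht0
  set b := a * I - τ * x with hb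
  have hnb : ‖b‖ ≤ 2 * s := by
    refine (norm_sub_le _ _).trans ?_
    have h1 : ‖a * I‖ ≤ s := by
      rw [norm_mul]
      calc ‖a‖ * ‖I‖ ≤ ‖a‖ * 1 := mul_le_mul_of_nonneg_left hI (norm_nonneg _)
        _ ≤ s := by rw [mul_one]; exact hna
    linarith
  have h1a : 1 / 2 ≤ ‖1 - a‖ := by
    have := norm_sub_norm_le (1 : ℂ) a
    rw [norm_one] at this
    linarith
  have hne : 1 - a ≠ 0 := by
    intro h0
    rw [h0, norm_zero] at h1a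
    linarith
  set w := I + (1 + a) * b with hw
  set h := (I - τ * x) / (1 - a) with hh
  have hd : h - w = a ^ 2 * b / (1 - a) := by
    rw [hh, hw, hb]
    field_simp
    ring
  have hnd : ‖h - w‖ ≤ 4 * s ^ 3 := by
    rw [hd, norm_div, norm_mul, norm_pow, div_le_iff₀ (by linarith)]
    have h1 : ‖a‖ ^ 2 ≤ s ^ 2 := pow_le_pow_left₀ (norm_nonneg _) hna 2
    have h2 : ‖a‖ ^ 2 * ‖b‖ ≤ s ^ 2 * (2 * s) :=
      mul_le_mul h1 hnb (norm_nonneg _) (sq_nonneg _)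
    have h3 : 4 * s ^ 3 * (1 / 2) ≤ 4 * s ^ 3 * ‖1 - a‖ :=
      mul_le_mul_of_nonneg_left h1a (by positivity)
    nlinarith
  have hnw : ‖w‖ ≤ 5 / 2 := by
    refine (norm_add_le _ _).trans ?_
    rw [norm_mul]
    have h1 : ‖1 + a‖ ≤ 3 / 2 := by
      refine (norm_add_le _ _).trans ?_
      rw [norm_one]
      linarith
    have h2 : ‖1 + a‖ * ‖b‖ ≤ 3 / 2 * (2 * s) :=
      mul_le_mul h1 hnb (norm_nonneg _) (by norm_num)
    linarith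
  have hsq : ‖w‖ ^ 2 - 2 * ‖w‖ * ‖h - w‖ ≤ ‖h‖ ^ 2 := by
    refine sq_aux (norm_nonneg _) (norm_nonneg _) (norm_nonneg _) ?_
    have := norm_sub_norm_le w h
    rw [norm_sub_rev w h] at this
    linarith
  have hww : ‖w‖ ^ 2 = ‖I‖ ^ 2 + 2 * ((starRingEnd ℂ) I * b).re +
      2 * ((starRingEnd ℂ) I * (a * b)).re + ‖1 + a‖ ^ 2 * ‖b‖ ^ 2 := by
    rw [hw]
    simp only [Complex.sq_norm, Complex.normSq_apply, Complex.add_re, Complex.add_im,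
      Complex.mul_re, Complex.mul_im, Complex.one_re, Complex.one_im, Complex.conj_re,
      Complex.conj_im]
    ring
  have h1a2 : 1 - 2 * ‖a‖ ≤ ‖1 + a‖ ^ 2 := by
    have h1 : 1 - ‖a‖ ≤ ‖1 + a‖ := by
      have := norm_sub_norm_le (1 : ℂ) (-a)
      rw [norm_one, norm_neg, sub_neg_eq_add] at this
      exact this
    have h2 : 0 ≤ 1 - ‖a‖ := by linarith
    nlinarith [sq_nonneg ‖a‖]
  have hbb : ‖b‖ ^ 2 ≤ (2 * s) ^ 2 := pow_le_pow_left₀ (norm_nonneg _) hnb 2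
  have h4 : (1 - 2 * ‖a‖) * ‖b‖ ^ 2 ≤ ‖1 + a‖ ^ 2 * ‖b‖ ^ 2 :=
    mul_le_mul_of_nonneg_right h1a2 (sq_nonneg _)
  have h5 : ‖a‖ * ‖b‖ ^ 2 ≤ s * (2 * s) ^ 2 :=
    mul_le_mul hna hbb (sq_nonneg _) hs0
  have h6 : ‖w‖ * ‖h - w‖ ≤ 5 / 2 * (4 * s ^ 3) :=
    mul_le_mul hnw hnd (norm_nonneg _) (by norm_num)
  have h7 : Qf I x y τ = ‖I‖ ^ 2 + 2 * ((starRingEnd ℂ) I * b).re +
      2 * ((starRingEnd ℂ) I * (a * b)).re + ‖b‖ ^ 2 := rfl
  rw [h7]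
  nlinarith

theorem sum_Qf (I x y : ℂ) (t : ℝ) : Qf I x y (t * Complex.I ^ 0) + Qf I x y (t * Complex.I ^ 1) +
    Qf I x y (t * Complex.I ^ 2) + Qf I x y (t * Complex.I ^ 3) =
      4 * ‖I‖ ^ 2 + 4 * t ^ 2 * ‖x - I * (starRingEnd ℂ) y‖ ^ 2 := by
  have e3 : Complex.I ^ 3 = -Complex.I := Complex.I_pow_three
  have e2 : Complex.I ^ 2 = -1 := Complex.I_sq
  unfold Qf
  rw [e3, e2, pow_one, pow_zero]
  simp only [Complex.sq_norm, Complex.normSq_apply, Complex.add_re, Complex.add_im,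
    Complex.mul_re, Complex.mul_im, Complex.one_re, Complex.one_im, Complex.conj_re,
    Complex.conj_im, Complex.sub_re, Complex.sub_im, Complex.neg_re, Complex.neg_im,
    Complex.I_re, Complex.I_im, Complex.ofReal_re, Complex.ofReal_im]
  ring

end FP

open FP in
theorem four_phases {M : ℝ} (hM : 0 ≤ M) : ∃ K t₀ : ℝ, 0 < t₀ ∧ ∀ (I x y : ℂ) (t : ℝ),
    ‖I‖ ≤ 1 → ‖x‖ ≤ M → ‖y‖ ≤ M → 0 ≤ t → t ≤ t₀ →
    4 * ‖I‖ ^ 2 + 4 * t ^ 2 * ‖x - I * (starRingEnd ℂ) y‖ ^ 2 - K * t ^ 3 ≤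
      ∑ j : Fin 4, ‖(I - (t * Complex.I ^ (j : ℕ)) * x) /
        (1 - (starRingEnd ℂ) (t * Complex.I ^ (j : ℕ)) * y)‖ ^ 2 := by
  refine ⟨112 * M ^ 3, 1 / (2 * (M + 1)), by positivity, fun I x y t hI hx hy ht0 ht => ?_⟩
  have htM : t * M ≤ 1 / 2 := by
    have h1 : t * M ≤ 1 / (2 * (M + 1)) * M := mul_le_mul_of_nonneg_right ht hM
    have h2 : 1 / (2 * (M + 1)) * M ≤ 1 / 2 := by
      rw [div_mul_eq_mul_div, one_mul, div_le_div_iff₀ (by positivity) (by norm_num)]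
      linarith
    linarith
  have hn : ∀ j : ℕ, ‖(t * Complex.I ^ j : ℂ)‖ = t := by
    intro j
    rw [norm_mul, norm_pow, Complex.norm_I, one_pow, mul_one, Complex.norm_real,
      Real.norm_of_nonneg ht0]
  have h := fun j : ℕ => one_phase ht0 htM hM (hn j) hI hx hy
  have hs := sum_Qf I x y t
  have h0 := h 0
  have h1 := h 1
  have h2 := h 2
  have h3 := h 3
  rw [Fin.sum_univ_four]
  have e : 112 * M ^ 3 * t ^ 3 = 4 * (28 * (t * M) ^ 3) := by ring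
  rw [e, ← hs]
  simp only [Fin.val_zero, Fin.val_one, Fin.val_two,
    show ((3 : Fin 4) : ℕ) = 3 from rfl]
  linarith

end Pool.Agent.Helper23.KU
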